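import Pool.Agent.Lib_helper66.KP.C
import Pool.Agent.Lib_helper39.TP.Stmt

/-!
# Blocks G2, G3 of TP: path-connectedness and the case of degree 0
-/

open Module Metric Set Filter Topology CategoryTheory
open scoped ContDiff

noncomputable section

namespace Pool.Agent.TP

open KP KP.A66

theorem face_vertex (n : ℕ) (i : Fin (n + 2)) (j : Fin (n + 1)) :
    face n i (stdSimplex.vertex j) = stdSimplex.vertex (i.succAbove j) := by
  show stdSimplex.map (Fin.succAbove i) (stdSimplex.vertex j) = _
  exact stdSimplex.map_vertex _ _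

theorem injIn_of_tight {M E : Type} [TopologicalSpace M] [NormedAddCommGroup E] [NormedSpace ℝ E]
    {f : M → E} (ht : IsTight f) (ξ : E →L[ℝ] ℝ) (hξ : ξ ≠ 0) (c : ℝ) (n : ℕ) :
    InjIn {x : M | ξ (f x) ≤ c} n :=
  injIn_of_injective _ _ (ht ξ c hξ n)

theorem connIn_of_like {d : ℕ} {M : Type} [TopologicalSpace M]
    (h : LikeProjPlane d M) : ConnIn M := by
  apply connIn_of_rank
  exact Module.rank_eq_one_iff_finrank_eq_one.2 ((h 0).1 (Or.inl rfl))

theorem nonempty_of_like {d : ℕ} (M : Type) [TopologicalSpace M]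
    (h : LikeProjPlane d M) : Nonempty M := by
  by_contra hne
  rw [not_nonempty_iff] at hne
  have h1 : finrank (ZMod 2) ((KC (TopCat.of M)).homology 0) = 1 := (h 0).1 (Or.inl rfl)
  have hem : IsEmpty C(stdSimplex ℝ (Fin (0 + 1)), M) :=
    ⟨fun σ => hne.elim (σ (stdSimplex.vertex 0))⟩
  have hsub : Subsingleton (Ch M 0) := inferInstance
  have hK : Subsingleton ((KC (TopCat.of M)).X 0) := by
    refine ⟨fun a b => ?_⟩
    rw [← ofCh_toCh (X := TopCat.of M) a, ← ofCh_toCh (X := TopCat.of M) b]
    congr 1
    exact hsub.elim _ _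
  have hZ : Subsingleton ((KC (TopCat.of M)).cycles 0) := by
    refine ⟨fun a b => ?_⟩
    exact (ModuleCat.mono_iff_injective ((KC (TopCat.of M)).iCycles 0)).1 inferInstance
      (hK.elim _ _)
  have hH : Subsingleton ((KC (TopCat.of M)).homology 0) := by
    refine ⟨fun a b => ?_⟩
    have hs := (ModuleCat.epi_iff_surjective ((KC (TopCat.of M)).homologyπ 0)).1 inferInstance
    obtain ⟨a', rfl⟩ := hs a
    obtain ⟨b', rfl⟩ := hs b
    rw [hZ.elim a' b']
  rw [Module.finrank_zero_of_subsingleton] at h1
  exact zero_ne_one h1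

/-- (G2) path-connectedness from `β₀ = 1` -/
theorem pathConnected_of_like {d : ℕ} (M : Type) [TopologicalSpace M]
    (h : LikeProjPlane d M) : PathConnectedSpace M :=
  ⟨nonempty_of_like M h, fun p q => joined_of_connIn (connIn_of_like h) p q⟩

theorem connIn_of_pathConnected (M : Type) [TopologicalSpace M] [PathConnectedSpace M] :
    ConnIn M := by
  intro p q
  obtain ⟨γ⟩ := PathConnectedSpace.joined p q
  let σ : C(stdSimplex ℝ (Fin 2), M) :=
    ⟨fun t => γ.extend ((t : Fin 2 → ℝ) 1), γ.continuous_extend.comp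
      ((continuous_apply 1).comp continuous_subtype_val)⟩
  refine ⟨Finsupp.single σ 1, ?_⟩
  rw [bd_single, Fin.sum_univ_two, add_comm]
  have hu : ∀ t : stdSimplex ℝ (Fin (0 + 1)), t = stdSimplex.vertex 0 := by
    intro t
    ext i
    have h1 : ((t : Fin 1 → ℝ) 0) = 1 := by
      have := t.2.2
      simpa using this
    have : i = 0 := by omega
    subst this
    rw [h1]
    simp
  have e1 : σ.comp (face 0 1) = ContinuousMap.const _ p := by
    ext t
    rw [hu t]
    simp only [ContinuousMap.comp_apply, face_vertex, ContinuousMap.const_apply]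
    show γ.extend _ = p
    simp
  have e0 : σ.comp (face 0 0) = ContinuousMap.const _ q := by
    ext t
    rw [hu t]
    simp only [ContinuousMap.comp_apply, face_vertex, ContinuousMap.const_apply]
    show γ.extend _ = q
    simp
  rw [e1, e0]

/-- (G3) the case of degree 0: strict local minima are global -/
theorem tight_T0 {M E : Type} [TopologicalSpace M] [T2Space M] [NormedAddCommGroup E] [NormedSpace ℝ E]
    [PathConnectedSpace M] (f : M → E) (hc : Continuous f) (ht : IsTight f)
    (ξ : E →L[ℝ] ℝ) (p : M) (U : Set M) (hU : IsOpen U) (hp : p ∈ U)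
    (hmin : ∀ x ∈ U, x ≠ p → ξ (f p) < ξ (f x)) : ∀ x, ξ (f p) ≤ ξ (f x) := by
  intro x
  by_cases hξ : ξ = 0
  · simp [hξ]
  by_cases hx : x = p
  · rw [hx]
  have := top_global (fun x => - ξ (f x)) (by fun_prop) (connIn_of_pathConnected M)
    (by
      intro c
      have h1 := injIn_of_tight ht ξ hξ (-c) 0
      have h2 : {q : M | c ≤ - ξ (f q)} = {x : M | ξ (f x) ≤ -c} := by
        ext q
        simp only [mem_ofPred_eq]
        constructor <;> intro h <;> linarith
      rw [h2]
      exact h1) p
    (by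
      filter_upwards [hU.mem_nhds hp] with q hq hne
      have := hmin q hq hne
      linarith) x hx
  linarith

end Pool.Agent.TP
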