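import Pool.Agent.Lib_helper69.KP.Defs

/-!
# Block A: Mathlib singular homology -> concrete mod 2 chains
-/

open CategoryTheory Limits Simplicial Opposite AlgebraicTopology

noncomputable section

namespace Pool.Agent.KP
namespace A66

/-! ### homological algebra -/

variable {K L : ChainComplex (ModuleCat.{0} (ZMod 2)) ℕ}

theorem exists_cycle (K : ChainComplex (ModuleCat.{0} (ZMod 2)) ℕ) (n : ℕ) (z : K.X n)
    (hz : K.d n ((ComplexShape.down ℕ).next n) z = 0) :
    ∃ c : K.cycles n, K.iCycles n c = z := by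
  let c : (K.sc n).moduleCatLeftHomologyData.K := ⟨z, hz⟩
  refine ⟨(K.sc n).moduleCatCyclesIso.inv c, ?_⟩
  exact (K.sc n).moduleCatCyclesIso_inv_iCycles_apply c

theorem π_eq_zero_iff (K : ChainComplex (ModuleCat.{0} (ZMod 2)) ℕ) (n : ℕ) (c : K.cycles n) :
    K.homologyπ n c = 0 ↔ ∃ w' : K.X (n + 1), K.d (n + 1) n w' = K.iCycles n c := by
  have h1 : K.homologyι n (K.homologyπ n c) = K.pOpcycles n (K.iCycles n c) := by
    have := K.homology_π_ι n
    exact congr($this c)
  have hm : Function.Injective (K.homologyι n) :=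
    (ModuleCat.mono_iff_injective _).1 inferInstance
  have h2 : K.homologyπ n c = 0 ↔ K.pOpcycles n (K.iCycles n c) = 0 := by
    rw [← h1]
    constructor
    · intro h; rw [h, map_zero]
    · intro h; exact hm (by rw [h, map_zero])
  rw [h2]
  have h := (K.sc n).moduleCat_pOpcycles_eq_zero_iff (K.iCycles n c)
  refine h.trans ?_
  have hp : (ComplexShape.down ℕ).prev n = n + 1 := by simp
  generalize K.iCycles n c = z
  have : ∀ j, j = n + 1 → ((z ∈ LinearMap.range (K.d j n).hom) ↔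
      ∃ w' : K.X (n + 1), K.d (n + 1) n w' = z) := by
    rintro _ rfl
    exact Iff.rfl
  exact this _ hp

theorem inj_aux (φ : K ⟶ L) (n : ℕ)
    (hinj : Function.Injective (HomologicalComplex.homologyMap φ n)) (z : K.X n)
    (hz : K.d n ((ComplexShape.down ℕ).next n) z = 0) (w : L.X (n + 1))
    (hw : L.d (n + 1) n w = φ.f n z) : ∃ w' : K.X (n + 1), K.d (n + 1) n w' = z := by
  obtain ⟨c, hc⟩ := exists_cycle K n z hz
  rw [← hc, ← π_eq_zero_iff K]
  apply hinj
  rw [map_zero]
  have h2 : HomologicalComplex.homologyMap φ n (K.homologyπ n c)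
      = L.homologyπ n (HomologicalComplex.cyclesMap φ n c) := by
    have := HomologicalComplex.homologyπ_naturality φ n
    exact congr($this c)
  rw [h2, π_eq_zero_iff L]
  have h3 : L.iCycles n (HomologicalComplex.cyclesMap φ n c) = φ.f n (K.iCycles n c) := by
    have := HomologicalComplex.cyclesMap_i φ n
    exact congr($this c)
  rw [h3, hc]
  exact ⟨w, hw⟩

/-! ### comparison of chains -/

/-- the coefficients -/
abbrev R2 : ModuleCat.{0} (ZMod 2) := ModuleCat.of (ZMod 2) (ZMod 2)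

/-- the singular chain complex -/
abbrev KC (X : TopCat.{0}) : ChainComplex (ModuleCat.{0} (ZMod 2)) ℕ :=
  ((singularChainComplexFunctor (ModuleCat.{0} (ZMod 2))).obj R2).obj X

/-- inclusion of the summand of a simplex -/
def inc {X : TopCat.{0}} {n : ℕ} (s : (TopCat.toSSet.obj X) _⦋n⦌) : R2 ⟶ (KC X).X n :=
  (TopCat.toSSet.obj X).ιChainComplex (R := R2) s

/-- simplices as continuous maps -/
def toMap {X : TopCat.{0}} {n : ℕ} : (TopCat.toSSet.obj X) _⦋n⦌ ≃
    C(stdSimplex ℝ (Fin (n + 1)), X) := TopCat.toSSetObjEquiv X (op ⦋n⦌)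

theorem inc_ext {X : TopCat.{0}} {n : ℕ} {T : ModuleCat.{0} (ZMod 2)} {f g : (KC X).X n ⟶ T}
    (h : ∀ s, inc s ≫ f = inc s ≫ g) : f = g :=
  SSet.chainComplex_hom_ext (X := TopCat.toSSet.obj X) (R := R2) h

theorem inc_d {X : TopCat.{0}} {n : ℕ} (s : (TopCat.toSSet.obj X) _⦋n + 1⦌) :
    inc s ≫ (KC X).d (n + 1) n =
      ∑ i : Fin (n + 2), (-1) ^ i.val • inc ((TopCat.toSSet.obj X).δ i s) :=
  SSet.ιChainComplex_d (TopCat.toSSet.obj X) (R := R2) s

theorem inc_map {X Y : TopCat.{0}} (f : X ⟶ Y) {n : ℕ} (s : (TopCat.toSSet.obj X) _⦋n⦌) :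
    inc s ≫ (((singularChainComplexFunctor (ModuleCat.{0} (ZMod 2))).obj R2).map f).f n =
      inc ((TopCat.toSSet.map f).app _ s) :=
  SSet.ι_chainComplexMap_f (TopCat.toSSet.obj X) (TopCat.toSSet.obj Y) (TopCat.toSSet.map f)
    (R := R2) s

theorem toMap_δ {X : TopCat.{0}} {n : ℕ} (s : (TopCat.toSSet.obj X) _⦋n + 1⦌)
    (i : Fin (n + 2)) :
    toMap ((TopCat.toSSet.obj X).δ i s) = (toMap s).comp (face n i) := by
  rfl

theorem toMap_map {X Y : TopCat.{0}} (f : X ⟶ Y) {n : ℕ} (s : (TopCat.toSSet.obj X) _⦋n⦌) :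
    toMap ((TopCat.toSSet.map f).app _ s) = f.hom.comp (toMap s) := by
  rfl

/-- from Mathlib chains to concrete chains -/
def toCh (X : TopCat.{0}) (n : ℕ) : (KC X).X n ⟶ ModuleCat.of (ZMod 2) (Ch X n) :=
  ((TopCat.toSSet.obj X).isColimitChainComplexXCofan R2 n).desc
    (Cofan.mk _ (fun s => ModuleCat.ofHom (Finsupp.lsingle (toMap s))))

theorem inc_toCh {X : TopCat.{0}} {n : ℕ} (s : (TopCat.toSSet.obj X) _⦋n⦌) :
    inc s ≫ toCh X n = ModuleCat.ofHom (Finsupp.lsingle (toMap s)) :=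
  ((TopCat.toSSet.obj X).isColimitChainComplexXCofan R2 n).fac _ ⟨s⟩

theorem toCh_inc {X : TopCat.{0}} {n : ℕ} (s : (TopCat.toSSet.obj X) _⦋n⦌) (c : ZMod 2) :
    toCh X n (inc s c) = Finsupp.single (toMap s) c := by
  have := inc_toCh s
  exact congr($this c)

/-- linear version of `inc` -/
def incL {X : TopCat.{0}} {n : ℕ} (s : (TopCat.toSSet.obj X) _⦋n⦌) :
    ZMod 2 →ₗ[ZMod 2] ((KC X).X n : Type) := (inc s).hom

/-- from concrete chains to Mathlib chains -/
def ofCh (X : TopCat.{0}) (n : ℕ) : Ch X n →ₗ[ZMod 2] ((KC X).X n : Type) :=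
  Finsupp.lsum (ZMod 2) (fun σ => incL (toMap.symm σ))

theorem ofCh_single {X : TopCat.{0}} {n : ℕ} (σ : C(stdSimplex ℝ (Fin (n + 1)), X)) (c : ZMod 2) :
    ofCh X n (Finsupp.single σ c) = inc (toMap.symm σ) c := by
  unfold ofCh
  rw [Finsupp.lsum_single]
  rfl

theorem toCh_ofCh {X : TopCat.{0}} {n : ℕ} (z : Ch X n) : toCh X n (ofCh X n z) = z := by
  have h : (toCh X n).hom ∘ₗ (ofCh X n) = LinearMap.id := by
    ext σ : 2
    simp only [LinearMap.comp_apply, Finsupp.lsingle_apply, LinearMap.id_apply]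
    exact (congrArg _ (ofCh_single σ 1)).trans ((toCh_inc _ 1).trans (by
      rw [Equiv.apply_symm_apply]))
  exact LinearMap.congr_fun h z

theorem ofCh_toCh {X : TopCat.{0}} {n : ℕ} (z : (KC X).X n) : ofCh X n (toCh X n z) = z := by
  have h : toCh X n ≫ ModuleCat.ofHom (ofCh X n) = 𝟙 _ := by
    refine inc_ext fun s => ?_
    ext
    simp only [ModuleCat.hom_comp, LinearMap.comp_apply]
    refine (congrArg _ (toCh_inc s 1)).trans ?_
    refine (ofCh_single _ 1).trans ?_
    rw [Equiv.symm_apply_apply]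
    rfl
  exact congr($h z)

theorem bd_single {X : Type*} [TopologicalSpace X] (n : ℕ)
    (σ : C(stdSimplex ℝ (Fin (n + 2)), X)) :
    bd n (Finsupp.single σ 1) = ∑ i : Fin (n + 2), Finsupp.single (σ.comp (face n i)) (1 : ZMod 2) := by
  simp [bd]

theorem toCh_d {X : TopCat.{0}} {n : ℕ} (z : (KC X).X (n + 1)) :
    toCh X n ((KC X).d (n + 1) n z) = bd n (toCh X (n + 1) z) := by
  have h : (KC X).d (n + 1) n ≫ toCh X n = toCh X (n + 1) ≫ ModuleCat.ofHom (bd n) := by
    refine inc_ext fun s => ?_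
    rw [← Category.assoc, inc_d, ← Category.assoc, inc_toCh]
    rw [Preadditive.sum_comp]
    have h1 : ∀ i : Fin (n + 2), ((-1) ^ i.val • inc ((TopCat.toSSet.obj X).δ i s)) ≫ toCh X n =
        ModuleCat.ofHom (Finsupp.lsingle ((toMap s).comp (face n i))) := by
      intro i
      have h2 : ((-1 : ℤ) ^ i.val • inc ((TopCat.toSSet.obj X).δ i s)) =
          inc ((TopCat.toSSet.obj X).δ i s) := by
        rcases neg_one_pow_eq_or ℤ i.val with h | h
        · rw [h, one_smul]
        · rw [h, neg_smul, one_smul]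
          ext
          change -((inc ((TopCat.toSSet.obj X).δ i s)).hom (1 : ZMod 2)) = _
          rw [← map_neg]
          rfl
      rw [h2, inc_toCh, toMap_δ]
    rw [Finset.sum_congr rfl fun i _ => h1 i]
    ext : 2
    simp only [ModuleCat.hom_comp, LinearMap.comp_apply, ModuleCat.hom_sum, ModuleCat.hom_ofHom,
      LinearMap.sum_apply]
    exact (bd_single n (toMap s)).symm
  exact congr($h z)

theorem toCh_map {X Y : TopCat.{0}} (f : X ⟶ Y) {n : ℕ} (z : (KC X).X n) :
    toCh Y n ((((singularChainComplexFunctor (ModuleCat.{0} (ZMod 2))).obj R2).map f).f n z) =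
      Finsupp.lmapDomain (ZMod 2) (ZMod 2) (fun σ : C(stdSimplex ℝ (Fin (n + 1)), X) =>
        f.hom.comp σ) (toCh X n z) := by
  have h : (((singularChainComplexFunctor (ModuleCat.{0} (ZMod 2))).obj R2).map f).f n ≫ toCh Y n
      = toCh X n ≫ ModuleCat.ofHom (Finsupp.lmapDomain (ZMod 2) (ZMod 2)
        (fun σ : C(stdSimplex ℝ (Fin (n + 1)), X) => f.hom.comp σ)) := by
    refine inc_ext fun s => ?_
    rw [← Category.assoc, inc_map, inc_toCh, ← Category.assoc, inc_toCh, toMap_map]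
    ext : 2
    simp only [ModuleCat.hom_comp, LinearMap.comp_apply, ModuleCat.hom_ofHom]
    exact (Finsupp.mapDomain_single).symm
  exact congr($h z)

end A66

open A66

/-- in the notation of the definitions -/
theorem homologyMap_inj_aux {X Y : TopCat.{0}} (f : X ⟶ Y) (n : ℕ)
    (h : Function.Injective ((H2 n).map f)) (z : (KC X).X n)
    (hz : (KC X).d n ((ComplexShape.down ℕ).next n) z = 0) (w : (KC Y).X (n + 1))
    (hw : (KC Y).d (n + 1) n w =
      (((singularChainComplexFunctor (ModuleCat.{0} (ZMod 2))).obj R2).map f).f n z) :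
    ∃ w' : (KC X).X (n + 1), (KC X).d (n + 1) n w' = z :=
  inj_aux _ n h z hz w hw

theorem d_next_eq_zero (K : ChainComplex (ModuleCat.{0} (ZMod 2)) ℕ) (n : ℕ) (z : K.X (n + 1))
    (h : K.d (n + 1) n z = 0) : K.d (n + 1) ((ComplexShape.down ℕ).next (n + 1)) z = 0 := by
  have hn : (ComplexShape.down ℕ).next (n + 1) = n := by simp
  generalize (ComplexShape.down ℕ).next (n + 1) = j at *
  subst hn
  exact h

theorem d_next_zero (K : ChainComplex (ModuleCat.{0} (ZMod 2)) ℕ) (z : K.X 0) :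
    K.d 0 ((ComplexShape.down ℕ).next 0) z = 0 := by
  rw [HomologicalComplex.shape _ _ _ (by simp)]
  rfl

theorem bd_bd {X : Type} [TopologicalSpace X] (n : ℕ) (z : Ch X (n + 2)) :
    bd n (bd (n + 1) z) = 0 := by
  have h1 : toCh (TopCat.of X) n ((KC (TopCat.of X)).d (n + 1) n
      ((KC (TopCat.of X)).d (n + 2) (n + 1) (ofCh (TopCat.of X) (n + 2) z))) =
        bd n (bd (n + 1) z) := by
    rw [toCh_d, toCh_d, toCh_ofCh]
  rw [← h1]
  have h2 : (KC (TopCat.of X)).d (n + 1) n
      ((KC (TopCat.of X)).d (n + 2) (n + 1) (ofCh (TopCat.of X) (n + 2) z)) = 0 := by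
    have := (KC (TopCat.of X)).d_comp_d (n + 2) (n + 1) n
    exact congr($this (ofCh (TopCat.of X) (n + 2) z))
  rw [h2, map_zero]

/-- the inclusion of a subset as a continuous map -/
abbrev inclC {X : Type*} [TopologicalSpace X] (A : Set X) : C(A, X) :=
  ⟨Subtype.val, continuous_subtype_val⟩

/-- push forward along the inclusion of a subset -/
def pushIn {X : Type*} [TopologicalSpace X] (A : Set X) (n : ℕ) : Ch A n →ₗ[ZMod 2] Ch X n :=
  Finsupp.lmapDomain (ZMod 2) (ZMod 2) (fun σ : C(stdSimplex ℝ (Fin (n + 1)), A) =>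
    (inclC A).comp σ)

theorem pushIn_inj {X : Type*} [TopologicalSpace X] (A : Set X) (n : ℕ) :
    Function.Injective (pushIn A n) := by
  refine Finsupp.mapDomain_injective ?_
  intro σ τ h
  ext t
  have := congr($h t)
  exact this

theorem pushIn_bd {X : Type*} [TopologicalSpace X] (A : Set X) (n : ℕ) (z : Ch A (n + 1)) :
    pushIn A n (bd n z) = bd n (pushIn A (n + 1) z) := by
  have h : pushIn A n ∘ₗ bd n = bd n ∘ₗ pushIn A (n + 1) := by
    ext σ : 2
    simp only [LinearMap.comp_apply, Finsupp.lsingle_apply]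
    rw [bd_single, map_sum]
    have h1 : pushIn A (n + 1) (Finsupp.single σ 1) = Finsupp.single ((inclC A).comp σ) 1 :=
      Finsupp.mapDomain_single
    rw [h1, bd_single]
    refine Finset.sum_congr rfl fun i _ => ?_
    exact Finsupp.mapDomain_single
  exact LinearMap.congr_fun h z

theorem range_pushIn {X : Type*} [TopologicalSpace X] (A : Set X) (n : ℕ) :
    LinearMap.range (pushIn A n) = chIn A n := by
  unfold pushIn chIn
  rw [← Submodule.map_top, ← Finsupp.supported_univ, Finsupp.lmapDomain_supported]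
  congr 1
  ext τ
  simp only [Set.image_univ, Set.mem_range, Set.mem_ofPred_eq]
  constructor
  · rintro ⟨σ, rfl⟩
    rintro _ ⟨t, rfl⟩
    exact (σ t).2
  · intro h
    refine ⟨⟨fun t => ⟨τ t, h ⟨t, rfl⟩⟩, by fun_prop⟩, ?_⟩
    ext t
    rfl

theorem injIn_of_injective {X : Type} [TopologicalSpace X] (A : Set X) (n : ℕ)
    (h : Function.Injective (H2incl A n)) : InjIn A n := by
  intro z hz ⟨w, hw⟩
  rw [← range_pushIn] at hz
  obtain ⟨z', rfl⟩ := hz
  have hcyc : (KC (TopCat.of A)).d n ((ComplexShape.down ℕ).next n)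
      (ofCh (TopCat.of A) n z') = 0 := by
    rcases n with _ | n
    · exact d_next_zero _ _
    · apply d_next_eq_zero
      have h0 : toCh (TopCat.of A) n ((KC (TopCat.of A)).d (n + 1) n
          (ofCh (TopCat.of A) (n + 1) z')) = 0 := by
        rw [toCh_d, toCh_ofCh]
        apply pushIn_inj
        rw [map_zero, pushIn_bd]
        erw [← hw]
        exact bd_bd _ w
      have := congrArg (ofCh (TopCat.of A) n) h0
      rwa [ofCh_toCh, map_zero] at this
  obtain ⟨w', hw'⟩ := homologyMap_inj_aux _ n h (ofCh (TopCat.of A) n z') hcyc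
    (ofCh (TopCat.of X) (n + 1) w) (by
      have h1 := toCh_map (TopCat.ofHom (inclC A)) (ofCh (TopCat.of A) n z')
      have h2 := toCh_d (ofCh (TopCat.of X) (n + 1) w)
      rw [toCh_ofCh] at h1 h2
      have h3 := h2.trans (hw.trans h1.symm)
      have := congrArg (ofCh (TopCat.of X) n) h3
      rwa [ofCh_toCh, ofCh_toCh] at this)
  refine ⟨pushIn A (n + 1) (toCh (TopCat.of A) (n + 1) w'), ?_, ?_⟩
  · rw [← range_pushIn]; exact ⟨_, rfl⟩
  · rw [← pushIn_bd]
    congr 1
    have := congrArg (toCh (TopCat.of A) n) hw'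
    rwa [toCh_d, toCh_ofCh] at this

theorem vanishesIn_of_rank {X : Type} [TopologicalSpace X] (k : ℕ)
    (h : Module.rank (ZMod 2) ((H2 (k + 1)).obj (TopCat.of X)) = 0) : VanishesIn X k := by
  intro z hz
  have hs : Subsingleton ((H2 (k + 1)).obj (TopCat.of X)) := rank_zero_iff.1 h
  have hcyc : (KC (TopCat.of X)).d (k + 1) ((ComplexShape.down ℕ).next (k + 1))
      (ofCh (TopCat.of X) (k + 1) z) = 0 := by
    apply d_next_eq_zero
    have h0 : toCh (TopCat.of X) k ((KC (TopCat.of X)).d (k + 1) k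
        (ofCh (TopCat.of X) (k + 1) z)) = 0 := by
      rw [toCh_d, toCh_ofCh]
      exact hz
    have := congrArg (ofCh (TopCat.of X) k) h0
    rwa [ofCh_toCh, map_zero] at this
  obtain ⟨c, hc⟩ := exists_cycle _ _ _ hcyc
  obtain ⟨w, hw⟩ := (π_eq_zero_iff _ _ c).1 (hs.elim _ _)
  refine ⟨toCh (TopCat.of X) _ w, ?_⟩
  rw [hc] at hw
  have := congrArg (toCh (TopCat.of X) (k + 1)) hw
  rwa [toCh_d, toCh_ofCh] at this

/-- the augmentation -/
def aug (X : Type*) [TopologicalSpace X] : Ch X 0 →ₗ[ZMod 2] ZMod 2 :=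
  Finsupp.linearCombination (ZMod 2) (fun _ => (1 : ZMod 2))

theorem aug_bd {X : Type*} [TopologicalSpace X] (w : Ch X 1) : aug X (bd 0 w) = 0 := by
  have h : aug X ∘ₗ bd 0 = 0 := by
    ext σ : 2
    simp only [LinearMap.comp_apply, Finsupp.lsingle_apply]
    rw [bd_single]
    simp [aug]
    decide
  exact LinearMap.congr_fun h w

theorem connIn_of_rank {X : Type} [TopologicalSpace X]
    (h : Module.rank (ZMod 2) ((H2 0).obj (TopCat.of X)) = 1) : ConnIn X := by
  have hf : Module.finrank (ZMod 2) ((KC (TopCat.of X)).homology 0) = 1 :=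
    Module.finrank_eq_of_rank_eq (n := 1) (h.trans (by simp))
  have h01 : ∀ r : ZMod 2, r ≠ 0 → r = 1 := by decide
  have hpt : ∀ p : X, ∃ c : (KC (TopCat.of X)).cycles 0,
      (KC (TopCat.of X)).iCycles 0 c =
        ofCh (TopCat.of X) 0 (Finsupp.single (ContinuousMap.const _ p) 1) ∧
      (KC (TopCat.of X)).homologyπ 0 c ≠ 0 := by
    intro p
    obtain ⟨c, hc⟩ := exists_cycle _ _ _ (d_next_zero (KC (TopCat.of X))
      (ofCh (TopCat.of X) 0 (Finsupp.single (ContinuousMap.const _ p) 1)))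
    refine ⟨c, hc, ?_⟩
    rw [Ne, π_eq_zero_iff]
    rintro ⟨w, hw⟩
    rw [hc] at hw
    have := congrArg (toCh (TopCat.of X) 0) hw
    rw [toCh_d, toCh_ofCh] at this
    have h2 := congrArg (aug X) this
    erw [aug_bd] at h2
    simp [aug] at h2
  intro p q
  obtain ⟨c, hc, hc0⟩ := hpt p
  obtain ⟨c', hc', hc0'⟩ := hpt q
  obtain ⟨r, hr⟩ := exists_smul_eq_of_finrank_eq_one hf hc0 ((KC (TopCat.of X)).homologyπ 0 c')
  have hr1 : r = 1 := by
    refine h01 r ?_
    rintro rfl
    apply hc0'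
    rw [← hr]
    exact zero_smul _ _
  subst hr1
  rw [one_smul] at hr
  have hz : (KC (TopCat.of X)).homologyπ 0 (c + c') = 0 := by
    rw [map_add, ← hr, ← two_smul (ZMod 2)]
    have h2 : (2 : ZMod 2) = 0 := by decide
    rw [h2, zero_smul]
  obtain ⟨w, hw⟩ := (π_eq_zero_iff _ _ _).1 hz
  refine ⟨toCh (TopCat.of X) 1 w, ?_⟩
  rw [map_add, hc, hc', ← map_add] at hw
  have := congrArg (toCh (TopCat.of X) 0) hw
  rwa [toCh_d, toCh_ofCh] at this

end Pool.Agent.KP
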