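import Pool.Agent.Lib_helper66.KP.A

/-!
# Block C: strict local maxima are global; connectedness
-/

open scoped Topology
open Metric Set

noncomputable section

namespace Pool.Agent.KP

namespace A66

theorem lin_zero_of_chIn {X : Type*} [TopologicalSpace X] {A : Set X} {n : ℕ}
    (φ : Ch X n →ₗ[ZMod 2] ZMod 2)
    (h : ∀ σ : C(stdSimplex ℝ (Fin (n + 1)), X), range σ ⊆ A → φ (Finsupp.single σ 1) = 0)
    (w : Ch X n) (hw : w ∈ chIn A n) : φ w = 0 := by
  unfold chIn at hw
  rw [Finsupp.supported_eq_span_single] at hw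
  have : Submodule.span (ZMod 2) ((fun i : C(stdSimplex ℝ (Fin (n + 1)), X) =>
      Finsupp.single i (1 : ZMod 2)) '' {σ | range σ ⊆ A}) ≤ LinearMap.ker φ := by
    rw [Submodule.span_le]
    rintro _ ⟨σ, hσ, rfl⟩
    exact h σ hσ
  exact this hw

theorem single_mem_chIn' {X : Type*} [TopologicalSpace X] {A : Set X} {n : ℕ}
    (σ : C(stdSimplex ℝ (Fin (n + 1)), X)) (h : range σ ⊆ A) (c : ZMod 2) :
    Finsupp.single σ c ∈ chIn A n :=
  Finsupp.single_mem_supported _ _ h

open Classical in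
/-- mod 2 number of points of a `0`-chain in `B` -/
def inSet {X : Type*} [TopologicalSpace X] (B : Set X) : Ch X 0 →ₗ[ZMod 2] ZMod 2 :=
  Finsupp.linearCombination (ZMod 2)
    (fun σ => if σ (stdSimplex.vertex 0) ∈ B then (1 : ZMod 2) else 0)

theorem inSet_single {X : Type*} [TopologicalSpace X] (B : Set X)
    (σ : C(stdSimplex ℝ (Fin 1), X)) [Decidable (σ (stdSimplex.vertex 0) ∈ B)] :
    inSet B (Finsupp.single σ 1) = if σ (stdSimplex.vertex 0) ∈ B then (1 : ZMod 2) else 0 := by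
  simp only [inSet, Finsupp.linearCombination_single, one_smul]
  congr

theorem inSet_bd {X : Type*} [TopologicalSpace X] (A B : Set X)
    (hB : ∀ σ : C(stdSimplex ℝ (Fin 2), X), range σ ⊆ A → ∀ s t, σ s ∈ B → σ t ∈ B)
    (w : Ch X 1) (hw : w ∈ chIn A 1) : inSet B (bd 0 w) = 0 := by
  classical
  refine lin_zero_of_chIn (A := A) (inSet B ∘ₗ bd 0) (fun σ hσ => ?_) w hw
  rw [LinearMap.comp_apply, bd_single, map_sum, Fin.sum_univ_two, inSet_single, inSet_single]
  by_cases h0 : (σ.comp (face 0 0)) (stdSimplex.vertex 0) ∈ B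
  · have h1 : (σ.comp (face 0 1)) (stdSimplex.vertex 0) ∈ B := hB σ hσ _ _ h0
    rw [if_pos h0, if_pos h1]
    decide
  · have h1 : (σ.comp (face 0 1)) (stdSimplex.vertex 0) ∉ B := fun h => h0 (hB σ hσ _ _ h)
    rw [if_neg h0, if_neg h1, add_zero]

theorem inSet_const {X : Type*} [TopologicalSpace X] (B : Set X) (p q : X) (hp : p ∈ B)
    (hq : q ∉ B) :
    inSet B (Finsupp.single (ContinuousMap.const _ p) 1 +
      Finsupp.single (ContinuousMap.const _ q) 1) = 1 := by
  classical
  have hp' : (ContinuousMap.const (stdSimplex ℝ (Fin (0 + 1))) p) (stdSimplex.vertex 0) ∈ B := hp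
  have hq' : (ContinuousMap.const (stdSimplex ℝ (Fin (0 + 1))) q) (stdSimplex.vertex 0) ∉ B := hq
  rw [map_add, inSet_single, inSet_single, if_pos hp', if_neg hq', add_zero]

end A66

open A66

theorem pathConnectedSpace_stdSimplex66 (n : ℕ) :
    PathConnectedSpace (stdSimplex ℝ (Fin (n + 1))) := by
  rw [← isPathConnected_iff_pathConnectedSpace]
  exact (convex_stdSimplex ℝ _).isPathConnected ⟨_, (stdSimplex.vertex (S := ℝ) (0 : Fin (n + 1))).2⟩

theorem const_mem_chIn {M : Type*} [TopologicalSpace M] {A : Set M} {p q : M} (hp : p ∈ A)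
    (hq : q ∈ A) : (Finsupp.single (ContinuousMap.const _ p) 1 +
      Finsupp.single (ContinuousMap.const _ q) 1 : Ch M 0) ∈ chIn A 0 := by
  refine Submodule.add_mem _ (single_mem_chIn' _ ?_ _) (single_mem_chIn' _ ?_ _)
  · rintro _ ⟨t, rfl⟩; exact hp
  · rintro _ ⟨t, rfl⟩; exact hq

theorem top_global {M : Type} [TopologicalSpace M] [T2Space M] (h : M → ℝ) (hc : Continuous h)
    (hconn : ConnIn M) (hinj : ∀ c : ℝ, InjIn {q : M | c ≤ h q} 0) (p : M)
    (hp : ∀ᶠ q in 𝓝 p, q ≠ p → h q < h p) : ∀ q, q ≠ p → h q < h p := by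
  intro q hq
  by_contra hlt
  push Not at hlt
  obtain ⟨w, hw⟩ := hconn p q
  have hz : (Finsupp.single (ContinuousMap.const _ p) 1 +
      Finsupp.single (ContinuousMap.const _ q) 1 : Ch M 0) ∈ chIn {x : M | h p ≤ h x} 0 :=
    const_mem_chIn (le_refl (h p)) hlt
  obtain ⟨w', hw', hw2⟩ := hinj (h p) _ hz ⟨w, hw⟩
  have h1 := inSet_bd {x : M | h p ≤ h x} {p} (by
    intro σ hσ s t hs
    have := pathConnectedSpace_stdSimplex66 1
    obtain ⟨U, hU, hUo, hpU⟩ := mem_nhds_iff.1 hp
    have hcl : IsClosed (σ ⁻¹' {p}) := isClosed_singleton.preimage σ.continuous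
    have heq : σ ⁻¹' {p} = σ ⁻¹' U := by
      ext x
      simp only [mem_preimage, mem_singleton_iff]
      constructor
      · intro hx; rw [hx]; exact hpU
      · intro hx
        by_contra hne
        exact absurd (hU hx hne) (not_lt.2 (hσ ⟨x, rfl⟩))
    have hop : IsOpen (σ ⁻¹' {p}) := by rw [heq]; exact hUo.preimage σ.continuous
    have huniv := IsClopen.eq_univ ⟨hcl, hop⟩ ⟨s, hs⟩
    have : t ∈ σ ⁻¹' {p} := by rw [huniv]; trivial
    exact this) w' hw'
  rw [hw2, inSet_const {p} p q (Set.mem_singleton p) (by simpa using hq)] at h1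
  exact one_ne_zero h1

theorem preconnected_of_connIn {M : Type} [TopologicalSpace M] (h : ConnIn M) :
    PreconnectedSpace M := by
  rw [preconnectedSpace_iff_clopen]
  intro B hB
  by_contra hne
  push Not at hne
  obtain ⟨h0, h1⟩ := hne
  obtain ⟨p, hp⟩ := h0
  obtain ⟨q, hq⟩ := (Set.ne_univ_iff_exists_notMem B).1 h1
  obtain ⟨w, hw⟩ := h p q
  have h2 := inSet_bd univ B (by
    intro σ _ s t hs
    have := pathConnectedSpace_stdSimplex66 1
    have huniv := IsClopen.eq_univ (hB.preimage σ.continuous) ⟨s, hs⟩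
    have : t ∈ σ ⁻¹' B := by rw [huniv]; trivial
    exact this) w (by simp [chIn])
  rw [hw, inSet_const _ _ _ hp hq] at h2
  exact one_ne_zero h2

theorem joined_of_connIn {M : Type} [TopologicalSpace M] (h : ConnIn M) (p q : M) :
    Joined p q := by
  by_contra hq
  obtain ⟨w, hw⟩ := h p q
  have hB : ∀ σ : C(stdSimplex ℝ (Fin 2), M), range σ ⊆ univ →
      ∀ s t, σ s ∈ {x | Joined p x} → σ t ∈ {x | Joined p x} := by
    intro σ _ s t hs
    have := pathConnectedSpace_stdSimplex66 1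
    have hst : Joined (σ s) (σ t) := Joined.map (PathConnectedSpace.joined s t) σ.continuous
    exact Joined.trans hs hst
  have h2 := inSet_bd univ {x | Joined p x} hB w (by simp [chIn])
  rw [hw, inSet_const {x | Joined p x} p q (Joined.refl p) hq] at h2
  exact one_ne_zero h2

end Pool.Agent.KP
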